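import Pool.Agent.W394.BQN.Stm

/-!
# Part INT of project BQN: denominators
-/

set_option autoImplicit false

open Polynomial

namespace Pool.Agent.W216.BQN

open BQ Pool.Agent.W394.BQN

theorem exists_monic {V W : Type} [CommRing V] [CommRing W] (i : V →+* W) (hi : i.Finite)
    (h : W[X]) (hh : h.Monic) : ∃ g : V[X], g.Monic ∧ h ∣ g.map i := by
  have h1 : (AdjoinRoot.of h).Finite := by
    have := hh.finite_adjoinRoot
    rw [← AdjoinRoot.algebraMap_eq]
    exact RingHom.finite_algebraMap.2 this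
  have h2 : ((AdjoinRoot.of h).comp i).IsIntegral := (h1.comp hi).to_isIntegral
  obtain ⟨g, hg, hg0⟩ := h2 (AdjoinRoot.root h)
  refine ⟨g, hg, ?_⟩
  rw [← AdjoinRoot.mk_eq_zero, ← AdjoinRoot.aeval_eq, aeval_def, AdjoinRoot.algebraMap_eq,
    eval₂_map]
  exact hg0

theorem reverse_reverse' {W : Type} [CommRing W] (f : W[X]) (hf : f.coeff 0 ≠ 0) :
    f.reverse.reverse = f := by
  have h1 : f.natTrailingDegree = 0 := by
    rw [natTrailingDegree_eq_zero]
    exact Or.inr hf
  have h2 : f.reverse.natDegree = f.natDegree := by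
    rw [reverse_natDegree, h1, Nat.sub_zero]
  rw [reverse, h2, reverse]
  ext n
  rw [coeff_reflect, coeff_reflect, revAt_invol]

theorem t_INT : S_INT := by
  intro V W _ _ _ _ i hi f hf
  obtain ⟨a, f₀, rfl, hS, hm, he⟩ := S2.factor W f hf
  obtain ⟨g1, hg1, hd1⟩ := exists_monic i hi f₀ hm
  have hc0 : f₀.coeff 0 = 1 := by rw [coeff_zero_eq_eval_zero, he]
  have hc1 : f₀.coeff 0 ≠ 0 := by rw [hc0]; exact one_ne_zero
  have hr : f₀.reverse.Monic := by
    rw [Monic, reverse_leadingCoeff]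
    exact hS.2
  obtain ⟨g2, hg2, hd2⟩ := exists_monic i hi f₀.reverse hr
  have hd3 : f₀ ∣ g2.reverse.map i := by
    obtain ⟨c, hc⟩ := hd2
    have h1 : (g2.map i).reverse = g2.reverse.map i := by
      rw [reverse, reverse, hg2.natDegree_map i, reflect_map]
    rw [← h1, hc, reverse_mul_of_domain, reverse_reverse' f₀ hc1]
    exact dvd_mul_right _ _
  set g3 : V[X] := g2.reverse with hg3
  have hg30 : g3.coeff 0 = 1 := by
    rw [hg3, coeff_zero_reverse]
    exact hg2
  let N : ℕ := g3.natDegree + 1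
  have hN : (X ^ N * g1).Monic := (monic_X_pow N).mul hg1
  have hdeg : g3.degree < (X ^ N * g1).degree := by
    have h1 : (X ^ N * g1).natDegree = N + g1.natDegree := by
      rw [(monic_X_pow N).natDegree_mul hg1, natDegree_X_pow]
    apply degree_lt_degree
    rw [h1]
    omega
  have hmon : (g3 + X ^ N * g1).Monic := hN.add_of_right hdeg
  have hcoef : (g3 + X ^ N * g1).coeff 0 = 1 := by
    rw [coeff_add, hg30, mul_coeff_zero, coeff_X_pow, if_neg (by omega), zero_mul, add_zero]
  refine ⟨X ^ a * (g3 + X ^ N * g1), E.mem_S2_of a _ hmon hcoef, ?_⟩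
  rw [Polynomial.map_mul, Polynomial.map_pow, map_X]
  refine mul_dvd_mul_left _ ?_
  rw [Polynomial.map_add, Polynomial.map_mul]
  exact dvd_add hd3 (Dvd.dvd.mul_left hd1 _)

end Pool.Agent.W216.BQN
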